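import Pool.Agent.J4.H72.TD.Four

/-!
Exact Turán numbers for odd orders, and general uniformity.
-/

set_option autoImplicit false

open Finset Filter Topology

namespace Pool.Agent.J4.H72.TD

open Pool.Agent.H120R2.Clique Pool.Agent.H688R3.TuranGen

/-- the triples inside the parts of a balanced partition of `n` vertices into `l` parts -/
def inside (l n : ℕ) : ℕ := (n % l) * (n / l + 1).choose 3 + (l - n % l) * (n / l).choose 3

theorem c_self_le (n : ℕ) : c 3 3 n ≤ (n.choose 3 : ℝ) := by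
  unfold c
  have : (0 : ℝ) ≤ ex n 3 3 := Nat.cast_nonneg _
  linarith

theorem c_parts (q : ℕ) : ∀ a b : ℕ, 1 ≤ a + b →
    c 3 (2 * (a + b) + 1) (a * (q + 1) + b * q) ≤
      (a : ℝ) * ((q + 1).choose 3 : ℝ) + b * (q.choose 3 : ℝ) := by
  intro a b
  induction a with
  | zero =>
    induction b with
    | zero => intro h; omega
    | succ b ih =>
      intro _
      rcases Nat.eq_zero_or_pos b with rfl | hb
      · simpa using c_self_le q
      · have h1 := ih (by omega)
        have h2 := c_add (r := 3) (a := 2 * (0 + b) + 1) (b := 3) (by omega) le_rfl (by norm_num)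
          (0 * (q + 1) + b * q) q
        have h3 := c_self_le q
        have e1 : 2 * (0 + b) + 1 + 3 - 1 = 2 * (0 + (b + 1)) + 1 := by omega
        have e2 : 0 * (q + 1) + b * q + q = 0 * (q + 1) + (b + 1) * q := by ring
        rw [e1, e2] at h2
        push_cast at h1 ⊢
        linarith
  | succ a ih =>
    intro _
    rcases Nat.eq_zero_or_pos (a + b) with h0 | hb
    · have ha : a = 0 := by omega
      have hb : b = 0 := by omega
      subst ha hb
      simpa using c_self_le (q + 1)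
    · have h1 := ih (by omega)
      have h2 := c_add (r := 3) (a := 2 * (a + b) + 1) (b := 3) (by omega) le_rfl (by norm_num)
        (a * (q + 1) + b * q) (q + 1)
      have h3 := c_self_le (q + 1)
      have e1 : 2 * (a + b) + 1 + 3 - 1 = 2 * (a + 1 + b) + 1 := by omega
      have e2 : a * (q + 1) + b * q + (q + 1) = (a + 1) * (q + 1) + b * q := by ring
      rw [e1, e2] at h2
      push_cast at h1 ⊢
      linarith

/-- Turán's construction -/
theorem c_le_inside {l : ℕ} (hl : 1 ≤ l) (n : ℕ) : c 3 (2 * l + 1) n ≤ inside l n := by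
  have hlt := Nat.mod_lt n (show 0 < l by omega)
  have h := c_parts (n / l) (n % l) (l - n % l) (by omega)
  have e1 : n % l + (l - n % l) = l := by omega
  have e2 : n % l * (n / l + 1) + (l - n % l) * (n / l) = n := by
    have h1 := Nat.div_add_mod n l
    have h2 : n % l * (n / l + 1) + (l - n % l) * (n / l) =
        (n % l + (l - n % l)) * (n / l) + n % l := by ring
    rw [h2, e1, h1]
  rw [e1, e2] at h
  unfold inside
  push_cast
  exact h

theorem inside_step {l : ℕ} (hl : 1 ≤ l) (n : ℕ) :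
    inside (l + 1) (n + n / l) = inside l n + (n / l).choose 3 := by
  have hlt := Nat.mod_lt n (show 0 < l by omega)
  have h1 := Nat.div_add_mod n l
  have e : n + n / l = (l + 1) * (n / l) + n % l := by
    calc n + n / l = (l * (n / l) + n % l) + n / l := by rw [h1]
      _ = _ := by ring
  have hq : (n + n / l) / (l + 1) = n / l := by
    rw [e, Nat.mul_add_div (Nat.succ_pos l),
      Nat.div_eq_of_lt (show n % l < l + 1 from hlt.trans (Nat.lt_succ_self l)), add_zero]
  have hr : (n + n / l) % (l + 1) = n % l := by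
    rw [e, Nat.mul_add_mod, Nat.mod_eq_of_lt (show n % l < l + 1 from hlt.trans (Nat.lt_succ_self l))]
  unfold inside
  rw [hq, hr]
  have : l + 1 - n % l = (l - n % l) + 1 := by omega
  rw [this]
  ring

/-- exact Turán numbers: from `2 l + 3` to `2 l + 1` -/
theorem exact_step {l : ℕ} (hl : 1 ≤ l)
    (h : ∀ n : ℕ, ex n 3 (2 * (l + 1) + 1) + inside (l + 1) n = n.choose 3) (n : ℕ) :
    ex n 3 (2 * l + 1) + inside l n = n.choose 3 := by
  have h1 := c_le_inside hl n
  have h2 := h (n + n / l)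
  rw [inside_step hl] at h2
  have h3 := c_add (r := 3) (a := 2 * l + 1) (b := 3) (by omega) le_rfl (by norm_num) n (n / l)
  have e1 : 2 * l + 1 + 3 - 1 = 2 * (l + 1) + 1 := by omega
  rw [e1] at h3
  have h4 := c_self_le (n / l)
  have h5 : ((ex (n + n / l) 3 (2 * (l + 1) + 1) : ℕ) : ℝ) +
      ((inside l n : ℝ) + ((n / l).choose 3 : ℝ)) = ((n + n / l).choose 3 : ℝ) := by
    exact_mod_cast h2
  have h6 : c 3 (2 * l + 1) n = inside l n := by
    refine le_antisymm h1 ?_
    have h7 : c 3 (2 * (l + 1) + 1) (n + n / l) = (inside l n : ℝ) + ((n / l).choose 3 : ℝ) := by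
      unfold c
      linarith
    linarith
  unfold c at h6
  have h8 : ((ex n 3 (2 * l + 1) : ℕ) : ℝ) + (inside l n : ℝ) = (n.choose 3 : ℝ) := by linarith
  exact_mod_cast h8

theorem exact_down {l l' : ℕ} (hl : 1 ≤ l') (hll : l' ≤ l)
    (h : ∀ n : ℕ, ex n 3 (2 * l + 1) + inside l n = n.choose 3) (n : ℕ) :
    ex n 3 (2 * l' + 1) + inside l' n = n.choose 3 := by
  obtain ⟨d, rfl⟩ := Nat.exists_eq_add_of_le hll
  clear hll
  induction d generalizing n with
  | zero => exact h n
  | succ d ih => exact ih n (exact_step (l := l' + d) (by omega) h)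

/-- an attained infimum propagates -/
theorem attained {r m : ℕ} (hr : 3 ≤ r) (hm : r ≤ m)
    (h : ∀ m' : ℕ, m ≤ m' → ((m : ℝ) - 1) ^ (r - 1) * (1 - turanDensity r m) ≤
      ((m' : ℝ) - 1) ^ (r - 1) * (1 - turanDensity r m')) (j : ℕ) (hj : 1 ≤ j) :
    1 - turanDensity r (j * (m - 1) + 1) = (1 - turanDensity r m) / (j : ℝ) ^ (r - 1) := by
  obtain ⟨s, rfl⟩ : ∃ s, r = s + 1 := ⟨r - 1, by omega⟩
  obtain ⟨x, rfl⟩ : ∃ x, m = x + 1 := ⟨m - 1, by omega⟩
  obtain ⟨q, rfl⟩ : ∃ q, j = q + 1 := ⟨j - 1, by omega⟩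
  have e2 : s + 1 - 1 = s := by omega
  have e3 : x + 1 - 1 = x := by omega
  rw [e2] at h ⊢
  rw [e3]
  have hx : s ≤ x := by omega
  have hs : 2 ≤ s := by omega
  have hle : (q + 1) * x + 1 ≥ x + 1 := by nlinarith
  have h1 := h _ hle
  have h2 := S_mul hs hx q
  have hqx : s ≤ (q + 1) * x := by nlinarith
  have h3 := S_pow hs hx
  have h4 := S_pow hs hqx
  have hp := S_pos hs hx
  have hp2 := S_pos hs hqx
  have ht1 := t_pos (r := s + 1) (m := x + 1) (by omega) (by omega)
  have ht2 := t_pos (r := s + 1) (m := (q + 1) * x + 1) (by omega) (by omega)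
  have hx0 : (0 : ℝ) < x := by exact_mod_cast (show 0 < x by omega)
  have hq0 : (0 : ℝ) < ((q : ℝ) + 1) := by positivity
  change t (s + 1) ((q + 1) * x + 1) = t (s + 1) (x + 1) / _
  have e4 : ((((q + 1) * x + 1 : ℕ) : ℝ) - 1) = ((q : ℝ) + 1) * x := by push_cast; ring
  have e5 : (((x + 1 : ℕ) : ℝ) - 1) = x := by push_cast; ring
  rw [e4, e5, mul_pow] at h1
  have h1' : (x : ℝ) ^ s * t (s + 1) (x + 1) ≤
      ((q : ℝ) + 1) ^ s * (x : ℝ) ^ s * t (s + 1) ((q + 1) * x + 1) := h1
  push_cast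
  rw [eq_div_iff (by positivity)]
  apply le_antisymm
  · have h5 : (((q : ℝ) + 1) * S s x) ^ s * t (s + 1) ((q + 1) * x + 1) ≤ 1 := by
      refine (mul_le_mul_of_nonneg_right (pow_le_pow_left₀ (by positivity) h2 s) ht2.le).trans ?_
      exact h4.le
    rw [mul_pow] at h5
    have h6 : (t (s + 1) ((q + 1) * x + 1) * ((q : ℝ) + 1) ^ s) * S s x ^ s ≤
        t (s + 1) (x + 1) * S s x ^ s := by
      calc _ = ((q : ℝ) + 1) ^ s * S s x ^ s * t (s + 1) ((q + 1) * x + 1) := by ring
        _ ≤ 1 := h5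
        _ = _ := by rw [← h3]; ring
    exact le_of_mul_le_mul_right h6 (by positivity)
  · have h7 : t (s + 1) (x + 1) * (x : ℝ) ^ s ≤
        (t (s + 1) ((q + 1) * x + 1) * ((q : ℝ) + 1) ^ s) * (x : ℝ) ^ s := by
      calc _ = (x : ℝ) ^ s * t (s + 1) (x + 1) := by ring
        _ ≤ _ := h1'
        _ = _ := by ring
    exact le_of_mul_le_mul_right h7 (by positivity)

end Pool.Agent.J4.H72.TD
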