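import Pool.Agent.H688R3.TuranGenLimit

/-!
Turán's construction for `K_4^3`, and the lower bounds `π(K_m^3) ≥ 1 - (2/(m-1))²`.
-/

set_option autoImplicit false

open Finset Filter Topology

namespace Pool.Agent.J4.H72.TD

open Pool.Agent.H120R2.Clique Pool.Agent.H688R3.TuranGen

/-- the class of a vertex -/
def col {k : ℕ} (v : Fin (k * 3)) : Fin 3 := (finProdFinEquiv.symm v).2

/-- a class -/
def cls (k : ℕ) (a : Fin 3) : Finset (Fin (k * 3)) := univ.filter fun v => col v = a

theorem mem_cls {k : ℕ} {a : Fin 3} {v : Fin (k * 3)} : v ∈ cls k a ↔ col v = a := by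
  simp [cls]

theorem card_cls (k : ℕ) (a : Fin 3) : (cls k a).card = k := by
  have h : cls k a = ((univ : Finset (Fin k)).map ⟨fun i => finProdFinEquiv (i, a), fun i j h => by
      have := finProdFinEquiv.injective h
      exact (Prod.mk.inj this).1⟩) := by
    ext v
    rw [mem_cls, Finset.mem_map]
    constructor
    · intro hv
      refine ⟨(finProdFinEquiv.symm v).1, mem_univ _, ?_⟩
      change finProdFinEquiv ((finProdFinEquiv.symm v).1, a) = v
      have : ((finProdFinEquiv.symm v).1, a) = finProdFinEquiv.symm v := by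
        rw [← hv]; rfl
      rw [this, Equiv.apply_symm_apply]
    · rintro ⟨i, -, rfl⟩
      change (finProdFinEquiv.symm (finProdFinEquiv (i, a))).2 = a
      rw [Equiv.symm_apply_apply]
  rw [h, card_map, card_univ, Fintype.card_fin]

/-- the non-edges of Turán's construction -/
def four (k : ℕ) : Finset (Finset (Fin (k * 3))) :=
  (univ.powersetCard 3).filter fun e => ∃ a : Fin 3, 2 ≤ (e ∩ cls k a).card ∧
    e ⊆ cls k a ∪ cls k (a + 1)

theorem cover_four (k : ℕ) : Cov 3 4 (four k) := by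
  refine ⟨fun e he => (mem_powersetCard.1 (mem_filter.1 he).1).2, fun S hS => ?_⟩
  have hsum : ∑ a : Fin 3, (S ∩ cls k a).card = 4 := by
    rw [← hS, Finset.card_eq_sum_card_fiberwise (f := col) (s := S) (t := univ)
      (fun _ _ => mem_univ _)]
    refine Finset.sum_congr rfl fun a _ => ?_
    congr 1
    ext v
    simp [mem_cls]
  rw [Fin.sum_univ_three] at hsum
  have hdis : ∀ a : Fin 3, Disjoint (S ∩ cls k a) (S ∩ cls k (a + 1)) := by
    intro a
    rw [Finset.disjoint_left]
    intro v h1 h2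
    rw [mem_inter, mem_cls] at h1 h2
    have : a = a + 1 := h1.2.symm.trans h2.2
    revert this
    fin_cases a <;> simp
  have key : ∃ a : Fin 3, 2 ≤ (S ∩ cls k a).card ∧
      3 ≤ (S ∩ cls k a).card + (S ∩ cls k (a + 1)).card := by
    have e1 : (0 : Fin 3) + 1 = 1 := rfl
    have e2 : (1 : Fin 3) + 1 = 2 := rfl
    have e3 : (2 : Fin 3) + 1 = 0 := rfl
    by_cases h0 : 2 ≤ (S ∩ cls k 0).card ∧ 3 ≤ (S ∩ cls k 0).card + (S ∩ cls k 1).card
    · exact ⟨0, by rw [e1]; exact h0⟩
    by_cases h1 : 2 ≤ (S ∩ cls k 1).card ∧ 3 ≤ (S ∩ cls k 1).card + (S ∩ cls k 2).card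
    · exact ⟨1, by rw [e2]; exact h1⟩
    refine ⟨2, ?_⟩
    rw [e3]
    omega
  obtain ⟨a, h2, h3⟩ := key
  obtain ⟨T, hT, hTc⟩ := exists_subset_card_eq h2
  have h4 : T.card < (S ∩ (cls k a ∪ cls k (a + 1))).card := by
    rw [inter_union_distrib_left, card_union_of_disjoint (hdis a)]
    omega
  obtain ⟨x, hx, hxT⟩ := exists_mem_notMem_of_card_lt_card h4
  rw [mem_inter] at hx
  refine ⟨insert x T, ?_, ?_⟩
  · rw [four, mem_filter, mem_powersetCard]
    refine ⟨⟨subset_univ _, by rw [card_insert_of_notMem hxT, hTc]⟩, a, ?_, ?_⟩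
    · rw [← hTc]
      refine card_le_card fun v hv => ?_
      rw [mem_inter]
      exact ⟨mem_insert_of_mem hv, (mem_inter.1 (hT hv)).2⟩
    · intro v hv
      rcases mem_insert.1 hv with rfl | hv
      · exact hx.2
      · exact mem_union_left _ (mem_inter.1 (hT hv)).2
  · intro v hv
    rcases mem_insert.1 hv with rfl | hv
    · exact hx.1
    · exact (mem_inter.1 (hT hv)).1

theorem card_four (k : ℕ) : (four k).card ≤ 3 * (k.choose 2 * k + k.choose 3) := by
  classical
  have hsub : four k ⊆ (univ : Finset (Fin 3)).biUnion fun a =>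
      (((cls k a).powersetCard 2) ×ˢ cls k (a + 1)).image (fun p => insert p.2 p.1) ∪
        (cls k a).powersetCard 3 := by
    intro e he
    rw [four, mem_filter, mem_powersetCard] at he
    obtain ⟨⟨-, hc⟩, a, h2, hsub⟩ := he
    rw [mem_biUnion]
    refine ⟨a, mem_univ _, ?_⟩
    by_cases hin : e ⊆ cls k a
    · exact mem_union_right _ (mem_powersetCard.2 ⟨hin, hc⟩)
    · obtain ⟨x, hx, hxa⟩ := not_subset.1 hin
      refine mem_union_left _ (mem_image.2 ⟨(e.erase x, x), ?_, ?_⟩)
      · rw [mem_product, mem_powersetCard]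
        have hcard : (e.erase x).card = 2 := by rw [card_erase_of_mem hx, hc]
        have hsub2 : e ∩ cls k a ⊆ e.erase x := by
          intro v hv
          rw [mem_inter] at hv
          rw [mem_erase]
          exact ⟨fun h => hxa (h ▸ hv.2), hv.1⟩
        have heq : e ∩ cls k a = e.erase x :=
          eq_of_subset_of_card_le hsub2 (by rw [hcard]; exact h2)
        refine ⟨⟨?_, hcard⟩, ?_⟩
        · rw [← heq]; exact inter_subset_right
        · rcases mem_union.1 (hsub hx) with h | h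
          · exact absurd h hxa
          · exact h
      · exact insert_erase hx
  refine (card_le_card hsub).trans (card_biUnion_le.trans ?_)
  have h1 : ∀ a ∈ (univ : Finset (Fin 3)),
      ((((cls k a).powersetCard 2) ×ˢ cls k (a + 1)).image (fun p => insert p.2 p.1) ∪
        (cls k a).powersetCard 3).card ≤ k.choose 2 * k + k.choose 3 := by
    intro a _
    refine (card_union_le _ _).trans (Nat.add_le_add (card_image_le.trans ?_) ?_)
    · rw [card_product, card_powersetCard, card_cls, card_cls]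
    · rw [card_powersetCard, card_cls]
  refine (sum_le_card_nsmul _ _ _ h1).trans ?_
  simp

theorem t_four : t 3 4 ≤ 4 / 9 := by
  have h1 : Tendsto (fun k : ℕ => c 3 4 (k * 3) / ((k * 3).choose 3 : ℝ)) atTop (𝓝 (t 3 4)) :=
    (tendsto_c 3 4).comp (tendsto_id.atTop_mul_const' (by norm_num : 0 < 3))
  have h2 : Tendsto (fun k : ℕ => 12 * ((k : ℝ) / (3 * k - 2)) ^ 3) atTop
      (𝓝 (12 * (1 / 3 : ℝ) ^ 3)) := by
    refine ((Tendsto.pow ?_ 3).const_mul 12)
    have h3 : Tendsto (fun k : ℕ => 1 / (3 - 2 / (k : ℝ))) atTop (𝓝 (1 / (3 - 0))) := by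
      refine Tendsto.div tendsto_const_nhds ?_ (by norm_num)
      exact tendsto_const_nhds.sub (tendsto_const_div_atTop_nhds_zero_nat 2)
    rw [sub_zero] at h3
    refine h3.congr' ?_
    filter_upwards [eventually_ge_atTop 1] with k hk
    have hk0 : (0 : ℝ) < k := by exact_mod_cast hk
    rw [div_eq_div_iff]
    · field_simp
    · have : 2 / (k : ℝ) ≤ 2 := by
        rw [div_le_iff₀ hk0]
        have : (1 : ℝ) ≤ k := by exact_mod_cast hk
        linarith
      linarith
    · have : (1 : ℝ) ≤ k := by exact_mod_cast hk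
      linarith
  have h4 : t 3 4 ≤ 12 * (1 / 3 : ℝ) ^ 3 := by
    refine le_of_tendsto_of_tendsto h1 h2 ?_
    filter_upwards [eventually_ge_atTop 1] with k hk
    have hk1 : (1 : ℝ) ≤ k := by exact_mod_cast hk
    have h5 : c 3 4 (k * 3) ≤ 2 * (k : ℝ) ^ 3 := by
      refine (c_le_card (cover_four k)).trans ?_
      have h6 : ((four k).card : ℝ) ≤ 3 * ((k.choose 2 : ℝ) * k + (k.choose 3 : ℝ)) := by
        exact_mod_cast card_four k
      have h7 := choose_le_pow' k 2
      have h8 := choose_le_pow' k 3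
      norm_num [Nat.factorial] at h7 h8
      have h9 : (k.choose 2 : ℝ) * k ≤ (k : ℝ) ^ 2 / 2 * k :=
        mul_le_mul_of_nonneg_right (by linarith) (by linarith)
      nlinarith
    have h10 : ((3 * (k : ℝ) - 2) ^ 3) / 6 ≤ (((k * 3).choose 3 : ℕ) : ℝ) := by
      have h11 : (((k * 3).choose 3 : ℕ) : ℝ) * 6 = (3 * (k : ℝ)) * (3 * k - 1) * (3 * k - 2) := by
        have h12 := Nat.descFactorial_eq_factorial_mul_choose (k * 3) 3
        have h13 : (k * 3).descFactorial 3 = (k * 3 - 2) * ((k * 3 - 1) * (k * 3)) := by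
          simp [Nat.descFactorial_succ]
        rw [h13] at h12
        have h14 : (((k * 3 - 2) * ((k * 3 - 1) * (k * 3)) : ℕ) : ℝ) =
            ((Nat.factorial 3 * (k * 3).choose 3 : ℕ) : ℝ) := by rw [h12]
        have e1 : ((k * 3 - 2 : ℕ) : ℝ) = 3 * (k : ℝ) - 2 := by
          rw [Nat.cast_sub (by omega)]; push_cast; ring
        have e2 : ((k * 3 - 1 : ℕ) : ℝ) = 3 * (k : ℝ) - 1 := by
          rw [Nat.cast_sub (by omega)]; push_cast; ring
        rw [Nat.cast_mul, Nat.cast_mul, Nat.cast_mul, e1, e2, Nat.cast_mul] at h14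
        norm_num [Nat.factorial] at h14
        linarith
      have h15 : (3 * (k : ℝ) - 2) ^ 3 ≤ (3 * (k : ℝ)) * (3 * k - 1) * (3 * k - 2) := by
        have p1 : 0 ≤ 3 * (k : ℝ) - 2 := by linarith
        have : (3 * (k : ℝ) - 2) * (3 * k - 2) ≤ (3 * (k : ℝ)) * (3 * k - 1) := by nlinarith
        calc (3 * (k : ℝ) - 2) ^ 3 = ((3 * (k : ℝ) - 2) * (3 * k - 2)) * (3 * k - 2) := by ring
          _ ≤ _ := mul_le_mul_of_nonneg_right this p1
      linarith
    have hp : 0 < 3 * (k : ℝ) - 2 := by linarith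
    have hp3 : 0 < (3 * (k : ℝ) - 2) ^ 3 / 6 := by positivity
    have hcn : (0 : ℝ) ≤ 2 * (k : ℝ) ^ 3 := by positivity
    calc c 3 4 (k * 3) / ((k * 3).choose 3 : ℝ) ≤ 2 * (k : ℝ) ^ 3 / ((k * 3).choose 3 : ℝ) :=
          div_le_div_of_nonneg_right h5 (Nat.cast_nonneg _)
      _ ≤ 2 * (k : ℝ) ^ 3 / ((3 * (k : ℝ) - 2) ^ 3 / 6) :=
          div_le_div_of_nonneg_left hcn hp3 h10
      _ = 12 * ((k : ℝ) / (3 * k - 2)) ^ 3 := by
          rw [div_pow]; field_simp; ring
  calc t 3 4 ≤ 12 * (1 / 3 : ℝ) ^ 3 := h4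
    _ = 4 / 9 := by norm_num

/-- the normalised size `(1 - π(K_{x+1}^3))^(-1/2)` -/
noncomputable abbrev s (x : ℕ) : ℝ := S 2 x

theorem s_two : s 2 = 1 := by
  have h : t (2 + 1) (2 + 1) = 1 := t_self 3
  unfold s S
  rw [h, Real.one_rpow]

theorem s_three : 3 / 2 ≤ s 3 := by
  have h := S_pow (s := 2) le_rfl (x := 3) (by norm_num)
  have h1 := t_four
  have h2 := S_pos (s := 2) le_rfl (x := 3) (by norm_num)
  have h3 : t (2 + 1) (3 + 1) ≤ 4 / 9 := h1
  by_contra hcon
  push Not at hcon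
  have h4 : S 2 3 ^ 2 < (3 / 2) ^ 2 := pow_lt_pow_left₀ hcon h2.le (by norm_num)
  have h5 : 0 < t (2 + 1) (3 + 1) := t_pos (by norm_num) (by norm_num)
  nlinarith

theorem half_le_s : ∀ x : ℕ, 2 ≤ x → (x : ℝ) / 2 ≤ s x := by
  intro x
  induction x using Nat.strong_induction_on with
  | _ x ih =>
    intro hx
    rcases Nat.lt_or_ge x 4 with h4 | h4
    · interval_cases x
      · rw [s_two]; norm_num
      · have := s_three; push_cast; linarith
    · have h1 := ih (x - 2) (by omega) (by omega)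
      have h2 := S_add (s := 2) le_rfl (x := x - 2) (y := 2) (by omega) le_rfl
      have e : x - 2 + 2 = x := by omega
      rw [e] at h2
      have h3 : S 2 2 = 1 := s_two
      rw [h3] at h2
      have h5 : ((x - 2 : ℕ) : ℝ) = (x : ℝ) - 2 := by rw [Nat.cast_sub (by omega)]; simp
      rw [h5] at h1
      have : s (x - 2) = S 2 (x - 2) := rfl
      rw [this] at h1
      show (x : ℝ) / 2 ≤ S 2 x
      linarith

theorem turan_iff {x : ℕ} (hx : 2 ≤ x) :
    turanDensity 3 (x + 1) = 1 - (2 / (x : ℝ)) ^ 2 ↔ s x = x / 2 := by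
  have h := S_pow (s := 2) le_rfl hx
  have hp := S_pos (s := 2) le_rfl hx
  have hx0 : (0 : ℝ) < x := by exact_mod_cast (show 0 < x by omega)
  have ht : t (2 + 1) (x + 1) = 1 - turanDensity 3 (x + 1) := rfl
  constructor
  · intro h1
    rw [ht, h1, sub_sub_cancel, ← mul_pow] at h
    have h2 : S 2 x * (2 / (x : ℝ)) = 1 := by
      have h3 : 0 < S 2 x * (2 / (x : ℝ)) := by positivity
      nlinarith [pow_pos h3 2]
    show S 2 x = _
    field_simp at h2 ⊢
    linarith
  · intro h1
    have h1' : S 2 x = x / 2 := h1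
    rw [h1', ht] at h
    have : (2 / (x : ℝ)) ^ 2 = 1 - turanDensity 3 (x + 1) := by
      field_simp at h ⊢
      linarith
    linarith

/-- descent -/
theorem descend {x y : ℕ} (hx : 2 ≤ x) (hxy : x + 2 ≤ y) (h : s y = y / 2) : s x = x / 2 := by
  have h1 := S_add (s := 2) le_rfl (x := x) (y := y - x) hx (by omega)
  have e : x + (y - x) = y := by omega
  rw [e] at h1
  have h2 := half_le_s (y - x) (by omega)
  have h3 := half_le_s x hx
  have h4 : ((y - x : ℕ) : ℝ) = (y : ℝ) - x := by rw [Nat.cast_sub (by omega)]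
  rw [h4] at h2
  have h5 : S 2 y = y / 2 := h
  refine le_antisymm ?_ h3
  show S 2 x ≤ _
  have h6 : s (y - x) = S 2 (y - x) := rfl
  rw [h6] at h2
  linarith

/-- superadditivity of the excess `s x - x / 2` -/
theorem mul_le_s {x : ℕ} (hx : 2 ≤ x) (q r : ℕ) (hr : 2 ≤ r) :
    (q : ℝ) * (s x - x / 2) + ((q * x + r : ℕ) : ℝ) / 2 ≤ s (q * x + r) := by
  induction q with
  | zero =>
    have := half_le_s r hr
    simpa using this
  | succ q ih =>
    have h1 := S_add (s := 2) le_rfl (x := x) (y := q * x + r) hx (by omega)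
    have e : x + (q * x + r) = (q + 1) * x + r := by ring
    rw [e] at h1
    have h2 : s (q * x + r) = S 2 (q * x + r) := rfl
    have h3 : s x = S 2 x := rfl
    rw [h2, h3] at ih
    show _ ≤ S 2 ((q + 1) * x + r)
    rw [h3]
    push_cast at ih ⊢
    linarith

/-- failure at one order -/
theorem fail_all {x : ℕ} (hx : 2 ≤ x) {y : ℕ} (hy : x + 2 ≤ y) :
    (y : ℝ) / 2 * (1 + 2 * (s x - x / 2) / (3 * x)) ≤ s y := by
  have hx0 : (0 : ℝ) < x := by exact_mod_cast (show 0 < x by omega)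
  obtain ⟨q, r, hq, hr, hr2, he⟩ : ∃ q r : ℕ, 1 ≤ q ∧ 2 ≤ r ∧ r ≤ x + 1 ∧ y = q * x + r := by
    refine ⟨(y - 2) / x, (y - 2) % x + 2, ?_, by omega, ?_, ?_⟩
    · exact (Nat.one_le_div_iff (by omega)).2 (by omega)
    · have := Nat.mod_lt (y - 2) (show 0 < x by omega)
      omega
    · have := Nat.div_add_mod' (y - 2) x
      omega
  have h1 := mul_le_s hx q r hr
  rw [← he] at h1
  have hd : 0 ≤ s x - x / 2 := by have := half_le_s x hx; linarith
  have hy3 : (y : ℝ) ≤ 3 * (q * x) := by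
    have : y ≤ 3 * (q * x) := by
      have : x ≤ q * x := Nat.le_mul_of_pos_left _ hq
      omega
    exact_mod_cast this
  have h2 : (y : ℝ) / 2 * (2 * (s x - x / 2) / (3 * x)) ≤ q * (s x - x / 2) := by
    rw [show (y : ℝ) / 2 * (2 * (s x - x / 2) / (3 * x)) = y / (3 * x) * (s x - x / 2) by
      field_simp]
    refine mul_le_mul_of_nonneg_right ?_ hd
    rw [div_le_iff₀ (by positivity)]
    linarith
  linarith

end Pool.Agent.J4.H72.TD
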